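import Pool.Agent.Lib.MP_b3782f_an.H79.Deriv

set_option autoImplicit false

open Finset PowerSeries

namespace Pool.Agent.Lib.MP_b3782f_an.H79b

open Pool.Agent.Lib.MP_b3782f_an.H79

section Alt

theorem alt_sum (n : ℕ) (hn : n ≠ 0) :
    ∑ p ∈ antidiagonal n, ((p.1.factorial : ℂ)⁻¹) * (((-1 : ℂ) ^ p.2) * ((p.2.factorial : ℂ)⁻¹))
      = 0 := by
  have h := congrArg (PowerSeries.coeff n) (PowerSeries.exp_mul_exp_neg_eq_one (A := ℂ))
  rw [PowerSeries.coeff_mul, PowerSeries.coeff_one, if_neg hn] at h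
  rw [← h]
  refine Finset.sum_congr rfl fun p _ => ?_
  rw [PowerSeries.evalNegHom, PowerSeries.coeff_rescale, PowerSeries.coeff_exp,
    PowerSeries.coeff_exp]
  simp

end Alt

section Alg

variable {A : Type*} [Ring A] [Algebra ℂ A]

theorem dp_dp (δ : A →ₗ[ℂ] A) (k l : ℕ) (a : A) :
    dp δ k (dp δ l a) = (((k.factorial : ℂ)⁻¹) * ((l.factorial : ℂ)⁻¹)) • (δ ^ (k + l)) a := by
  rw [dp_apply, dp_apply, map_smul, smul_smul, pow_add, Module.End.mul_apply]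

theorem sum_dp_dp (δ : A →ₗ[ℂ] A) (n : ℕ) (a : A) :
    ∑ p ∈ antidiagonal n, ((-1 : ℂ) ^ p.2) • dp δ p.1 (dp δ p.2 a) = if n = 0 then a else 0 := by
  have h : ∀ p ∈ antidiagonal n, ((-1 : ℂ) ^ p.2) • dp δ p.1 (dp δ p.2 a)
      = (((p.1.factorial : ℂ)⁻¹) * (((-1 : ℂ) ^ p.2) * ((p.2.factorial : ℂ)⁻¹))) • (δ ^ n) a := by
    intro p hp
    rw [dp_dp, smul_smul, HasAntidiagonal.mem_antidiagonal.1 hp]
    congr 1
    ring
  rw [Finset.sum_congr rfl h, ← Finset.sum_smul]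
  split_ifs with hn
  · subst hn
    simp
  · rw [alt_sum n hn, zero_smul]

theorem sum_dp_dp' (δ : A →ₗ[ℂ] A) (n : ℕ) (a : A) :
    ∑ p ∈ antidiagonal n, ((-1 : ℂ) ^ p.1) • dp δ p.1 (dp δ p.2 a) = if n = 0 then a else 0 := by
  rw [← sum_dp_dp δ n a]
  rw [← Finset.Nat.sum_antidiagonal_swap]
  refine Finset.sum_congr rfl fun p _ => ?_
  simp only [Prod.fst_swap, Prod.snd_swap]
  rw [dp_dp, dp_dp, add_comm p.1 p.2, mul_comm ((p.1.factorial : ℂ)⁻¹)]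

/-- `e^{-tδ}` on formal power series. -/
noncomputable def Phi (δ : A →ₗ[ℂ] A) (g : A⟦X⟧) : A⟦X⟧ :=
  PowerSeries.mk fun n => ∑ p ∈ antidiagonal n, ((-1 : ℂ) ^ p.1) • dp δ p.1 (coeff p.2 g)

theorem coeff_Phi (δ : A →ₗ[ℂ] A) (g : A⟦X⟧) (n : ℕ) :
    coeff n (Phi δ g) = ∑ p ∈ antidiagonal n, ((-1 : ℂ) ^ p.1) • dp δ p.1 (coeff p.2 g) := by
  rw [Phi, coeff_mk]

theorem Phi_dp (δ : A →ₗ[ℂ] A) (w : A) :
    Phi δ (PowerSeries.mk fun p => dp δ p w) = C w := by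
  ext n
  rw [coeff_Phi]
  simp only [coeff_mk]
  rw [sum_dp_dp', coeff_C]

/-- The inverse of `Phi`, at the level of coefficients. -/
theorem coeff_eq_sum_Phi (δ : A →ₗ[ℂ] A) (g : A⟦X⟧) (n : ℕ) :
    coeff n g = ∑ p ∈ antidiagonal n, dp δ p.1 (coeff p.2 (Phi δ g)) := by
  simp only [coeff_Phi, map_sum, map_smul]
  have h1 : ∑ p ∈ antidiagonal n, ∑ q ∈ antidiagonal p.2,
        ((-1 : ℂ) ^ q.1) • dp δ p.1 (dp δ q.1 (coeff q.2 g))
      = ∑ p ∈ antidiagonal n, ∑ q ∈ antidiagonal p.1,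
        ((-1 : ℂ) ^ q.2) • dp δ q.1 (dp δ q.2 (coeff p.2 g)) := by
    simp only [Finset.sum_sigma']
    refine Finset.sum_nbij' (fun z => ⟨(z.1.1 + z.2.1, z.2.2), (z.1.1, z.2.1)⟩)
      (fun z => ⟨(z.2.1, z.2.2 + z.1.2), (z.2.2, z.1.2)⟩) ?_ ?_ ?_ ?_ ?_
    · rintro ⟨⟨a, b⟩, ⟨c, d⟩⟩ hz
      simp only [mem_sigma, HasAntidiagonal.mem_antidiagonal] at hz ⊢
      exact ⟨by omega, trivial⟩
    · rintro ⟨⟨a, b⟩, ⟨c, d⟩⟩ hz
      simp only [mem_sigma, HasAntidiagonal.mem_antidiagonal] at hz ⊢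
      exact ⟨by omega, trivial⟩
    · rintro ⟨⟨a, b⟩, ⟨c, d⟩⟩ hz
      simp only [mem_sigma, HasAntidiagonal.mem_antidiagonal] at hz ⊢
      obtain ⟨h1, h2⟩ := hz
      subst h2
      rfl
    · rintro ⟨⟨a, b⟩, ⟨c, d⟩⟩ hz
      simp only [mem_sigma, HasAntidiagonal.mem_antidiagonal] at hz ⊢
      obtain ⟨h1, h2⟩ := hz
      subst h2
      rfl
    · rintro ⟨⟨a, b⟩, ⟨c, d⟩⟩ hz
      rfl
  rw [h1]
  have h2 : ∀ p ∈ antidiagonal n, ∑ q ∈ antidiagonal p.1,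
        ((-1 : ℂ) ^ q.2) • dp δ q.1 (dp δ q.2 (coeff p.2 g))
      = if p.1 = 0 then coeff p.2 g else 0 := fun p _ => sum_dp_dp δ p.1 _
  rw [Finset.sum_congr rfl h2, Finset.sum_eq_single (0, n)]
  · simp
  · rintro ⟨a, b⟩ hp hne
    rw [HasAntidiagonal.mem_antidiagonal] at hp
    simp only at hp ⊢
    rw [if_neg]
    rintro rfl
    apply hne
    simp only [Prod.mk.injEq, true_and]
    omega
  · intro h
    exact absurd (HasAntidiagonal.mem_antidiagonal.2 (zero_add n)) h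

variable {δ : A →ₗ[ℂ] A} (hδ : ∀ a b : A, δ (a * b) = a * δ b + δ a * b)

include hδ

theorem Phi_mul (g h : A⟦X⟧) : Phi δ (g * h) = Phi δ g * Phi δ h := by
  ext n
  rw [coeff_mul]
  have h1 : coeff n (Phi δ (g * h)) = ∑ p ∈ antidiagonal n, ∑ q ∈ antidiagonal p.2,
      ∑ r ∈ antidiagonal p.1,
        ((-1 : ℂ) ^ p.1) • (dp δ r.1 (coeff q.1 g) * dp δ r.2 (coeff q.2 h)) := by
    rw [coeff_Phi]
    refine Finset.sum_congr rfl fun p _ => ?_
    rw [coeff_mul, map_sum, Finset.smul_sum]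
    refine Finset.sum_congr rfl fun q _ => ?_
    rw [dp_mul hδ, Finset.smul_sum]
  have h2 : ∑ p ∈ antidiagonal n, coeff p.1 (Phi δ g) * coeff p.2 (Phi δ h)
      = ∑ p ∈ antidiagonal n, ∑ q ∈ antidiagonal p.1, ∑ r ∈ antidiagonal p.2,
        ((-1 : ℂ) ^ (q.1 + r.1)) • (dp δ q.1 (coeff q.2 g) * dp δ r.1 (coeff r.2 h)) := by
    refine Finset.sum_congr rfl fun p _ => ?_
    rw [coeff_Phi, coeff_Phi, Finset.sum_mul_sum]
    refine Finset.sum_congr rfl fun q _ => Finset.sum_congr rfl fun r _ => ?_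
    rw [smul_mul_smul_comm, pow_add]
  rw [h1, h2]
  simp only [Finset.sum_sigma']
  refine Finset.sum_nbij'
    (fun z => ⟨(z.2.2.1 + z.2.1.1, z.2.2.2 + z.2.1.2), ⟨(z.2.2.1, z.2.1.1), (z.2.2.2, z.2.1.2)⟩⟩)
    (fun z => ⟨(z.2.1.1 + z.2.2.1, z.2.1.2 + z.2.2.2), ⟨(z.2.1.2, z.2.2.2), (z.2.1.1, z.2.2.1)⟩⟩)
    ?_ ?_ ?_ ?_ ?_
  · rintro ⟨⟨a, b⟩, ⟨⟨c, d⟩, ⟨e, f⟩⟩⟩ hz
    simp only [mem_sigma, HasAntidiagonal.mem_antidiagonal] at hz ⊢
    exact ⟨by omega, trivial, trivial⟩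
  · rintro ⟨⟨a, b⟩, ⟨⟨c, d⟩, ⟨e, f⟩⟩⟩ hz
    simp only [mem_sigma, HasAntidiagonal.mem_antidiagonal] at hz ⊢
    exact ⟨by omega, trivial, trivial⟩
  · rintro ⟨⟨a, b⟩, ⟨⟨c, d⟩, ⟨e, f⟩⟩⟩ hz
    simp only [mem_sigma, HasAntidiagonal.mem_antidiagonal] at hz ⊢
    obtain ⟨h1, h2, h3⟩ := hz
    subst h2
    subst h3
    rfl
  · rintro ⟨⟨a, b⟩, ⟨⟨c, d⟩, ⟨e, f⟩⟩⟩ hz
    simp only [mem_sigma, HasAntidiagonal.mem_antidiagonal] at hz ⊢
    obtain ⟨h1, h2, h3⟩ := hz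
    subst h2
    subst h3
    rfl
  · rintro ⟨⟨a, b⟩, ⟨⟨c, d⟩, ⟨e, f⟩⟩⟩ hz
    simp only [mem_sigma, HasAntidiagonal.mem_antidiagonal] at hz ⊢
    obtain ⟨h1, h2, h3⟩ := hz
    rw [h3]

theorem dp_one {n : ℕ} (hn : n ≠ 0) : dp δ n (1 : A) = 0 := by
  obtain ⟨k, rfl⟩ := Nat.exists_eq_succ_of_ne_zero hn
  have h := hδ 1 1
  rw [mul_one, mul_one, one_mul] at h
  have h1 : δ 1 = 0 := left_eq_add.1 h
  rw [dp_apply, pow_succ, Module.End.mul_apply, h1, map_zero, smul_zero]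

/-- The ring homomorphism `a ↦ ∑ φ(δ^n a) X^n / n!`. -/
noncomputable def theta (φ : A →ₐ[ℂ] ℂ) : A →+* ℂ⟦X⟧ where
  toFun a := PowerSeries.mk fun n => φ (dp δ n a)
  map_one' := by
    ext n
    rw [coeff_mk, coeff_one]
    split_ifs with hn
    · subst hn
      simp
    · rw [dp_one hδ hn, map_zero]
  map_zero' := by
    ext n
    simp
  map_add' := fun a b => by
    ext n
    simp
  map_mul' := fun a b => by
    ext n
    rw [coeff_mk, coeff_mul, dp_mul hδ, map_sum]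
    refine Finset.sum_congr rfl fun p _ => ?_
    rw [coeff_mk, coeff_mk, map_mul]

theorem coeff_theta (φ : A →ₐ[ℂ] ℂ) (n : ℕ) (a : A) :
    coeff n (theta hδ φ a) = φ (dp δ n a) := by
  change coeff n (PowerSeries.mk fun n => φ (dp δ n a)) = _
  rw [coeff_mk]

end Alg

section Prime

theorem C_X_dvd_iff {R : Type*} [CommRing R] (f : R⟦X⟧⟦X⟧) :
    (C (X : R⟦X⟧)) ∣ f ↔ PowerSeries.map (constantCoeff (R := R)) f = 0 := by
  constructor
  · rintro ⟨g, rfl⟩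
    rw [map_mul, map_C, constantCoeff_X, map_zero, zero_mul]
  · intro h
    have h1 : ∀ n, ∃ g, coeff n f = X * g := by
      intro n
      have h2 : (X : R⟦X⟧) ∣ coeff n f := by
        rw [X_dvd_iff]
        have h3 := congrArg (coeff n) h
        rwa [coeff_map, map_zero] at h3
      exact h2
    choose g hg using h1
    refine ⟨PowerSeries.mk g, ?_⟩
    ext1 n
    rw [coeff_C_mul, coeff_mk, hg]

theorem prime_C_X {R : Type*} [CommRing R] [IsDomain R] :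
    Prime (C (X : R⟦X⟧)) := by
  refine ⟨?_, ?_, ?_⟩
  · intro h
    have h1 := congrArg (coeff 0) h
    rw [coeff_zero_C, map_zero] at h1
    exact X_ne_zero h1
  · intro h
    have h1 := h.map (PowerSeries.map (constantCoeff (R := R)))
    rw [map_C, constantCoeff_X, map_zero] at h1
    exact not_isUnit_zero h1
  · intro a b h
    rw [C_X_dvd_iff, map_mul] at h
    rw [C_X_dvd_iff, C_X_dvd_iff]
    exact mul_eq_zero.1 h

/-- If `g ^ N` is divisible by `P ^ (q (N - 1))` and `q < N` then `P ^ q ∣ g`. -/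
theorem prime_pow_dvd {S : Type*} [CommRing S] [IsDomain S] {P g h : S} (hP : Prime P)
    {q N : ℕ} (hN : q < N) (hg : g ^ N = P ^ (q * (N - 1)) * h) : P ^ q ∣ g := by
  have key : ∀ k ≤ q, P ^ k ∣ g := by
    intro k
    induction k with
    | zero => intro _; simp
    | succ k ih =>
      intro hk
      obtain ⟨g', hg'⟩ := ih (by omega)
      have h1 : k * N < q * (N - 1) := by
        have h2 : (k + 1) * N ≤ q * N := Nat.mul_le_mul_right N hk
        have h3 : q * (N - 1) = q * N - q := by rw [Nat.mul_sub, mul_one]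
        have h4 : (k + 1) * N = k * N + N := by ring
        omega
      obtain ⟨d, hd⟩ := Nat.exists_eq_add_of_lt h1
      have h2 : P ^ (k * N) * g' ^ N = P ^ (k * N) * (P * (P ^ d * h)) := by
        have h3 : P ^ (k * N) * g' ^ N = g ^ N := by rw [hg', mul_pow, pow_mul]
        rw [h3, hg, hd, pow_succ, pow_add]
        ring
      have h3 := mul_left_cancel₀ (pow_ne_zero _ hP.ne_zero) h2
      have h4 : P ∣ g' ^ N := ⟨_, h3⟩
      obtain ⟨g'', hg''⟩ := hP.dvd_of_dvd_pow h4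
      refine ⟨g'', ?_⟩
      rw [hg', hg'', pow_succ, mul_assoc]
  exact key q le_rfl

end Prime

section Key

variable {A : Type*} [Ring A] [Algebra ℂ A]
variable {δ : A →ₗ[ℂ] A} (hδ : ∀ a b : A, δ (a * b) = a * δ b + δ a * b)

include hδ

/-- The key algebraic lemma: the top coefficient of a limit system is forced. -/
theorem key_alg (φ : A →ₐ[ℂ] ℂ) {y w : A} {q N : ℕ} (hq : ∀ j < q, φ (dp δ j y) = 0)
    (hw : ∃ n, φ (dp δ n w) ≠ 0) (hN : q < N) (u : ℕ → ℕ → A) (t : ℕ → A)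
    (hu0 : ∀ p, u 0 p = dp δ p y)
    (hrel : ∀ i < N, ∀ p, ∑ r ∈ antidiagonal p, u (i + 1) r.1 * dp δ r.2 w
      = ∑ r ∈ antidiagonal p, u i r.1 * t r.2) :
    φ (u 1 q) = φ (dp δ q (u 1 0)) := by
  set θ := theta hδ φ with hθ
  set G : ℕ → ℂ⟦X⟧⟦X⟧ := fun i => PowerSeries.map θ (Phi δ (PowerSeries.mk (u i))) with hG
  set T : ℂ⟦X⟧⟦X⟧ := PowerSeries.map θ (Phi δ (PowerSeries.mk t)) with hT
  set W : ℂ⟦X⟧⟦X⟧ := C (θ w) with hW
  have hG0 : G 0 = C (θ y) := by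
    have h1 : PowerSeries.mk (u 0) = PowerSeries.mk fun p => dp δ p y := by
      congr 1
      funext p
      exact hu0 p
    rw [hG]
    simp only
    rw [h1, Phi_dp, map_C]
  have hWne : W ≠ 0 := by
    obtain ⟨n, hn⟩ := hw
    intro h
    apply hn
    have h1 := congrArg (coeff 0) h
    rw [coeff_zero_C, map_zero] at h1
    rw [← coeff_theta hδ φ n w, ← hθ, h1, map_zero]
  have hrel' : ∀ i < N, G (i + 1) * W = G i * T := by
    intro i hi
    have h1 : PowerSeries.mk (u (i + 1)) * PowerSeries.mk (fun p => dp δ p w)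
        = PowerSeries.mk (u i) * PowerSeries.mk t := by
      ext1 p
      rw [coeff_mul, coeff_mul]
      simp only [coeff_mk]
      exact hrel i hi p
    have h2 := congrArg (fun f => PowerSeries.map θ (Phi δ f)) h1
    rw [Phi_mul hδ, Phi_mul hδ, map_mul, map_mul, Phi_dp, map_C] at h2
    exact h2
  have hpow : ∀ i ≤ N, G i * W ^ i = G 0 * T ^ i := by
    intro i
    induction i with
    | zero => intro _; rw [pow_zero, pow_zero]
    | succ i ih =>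
      intro hi
      have h1 := ih (by omega)
      calc G (i + 1) * W ^ (i + 1) = (G (i + 1) * W) * W ^ i := by ring
        _ = (G i * W ^ i) * T := by rw [hrel' i (by omega)]; ring
        _ = G 0 * T ^ (i + 1) := by rw [h1]; ring
  obtain ⟨M, rfl⟩ : ∃ M, N = M + 1 := ⟨N - 1, by omega⟩
  have hmain : G 1 ^ (M + 1) = G 0 ^ M * G (M + 1) := by
    apply mul_right_cancel₀ (pow_ne_zero (M + 1) hWne)
    have h1 := hpow 1 (by omega)
    rw [pow_one, pow_one] at h1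
    calc G 1 ^ (M + 1) * W ^ (M + 1) = (G 1 * W) ^ (M + 1) := by rw [mul_pow]
      _ = G 0 ^ M * (G 0 * T ^ (M + 1)) := by rw [h1, mul_pow, pow_succ]; ring
      _ = G 0 ^ M * G (M + 1) * W ^ (M + 1) := by rw [← hpow (M + 1) le_rfl]; ring
  obtain ⟨v, hv⟩ : (X : ℂ⟦X⟧) ^ q ∣ θ y := by
    rw [X_pow_dvd_iff]
    intro j hj
    rw [hθ, coeff_theta hδ φ j y]
    exact hq j hj
  have hdvd : (C (X : ℂ⟦X⟧)) ^ q ∣ G 1 := by
    refine prime_pow_dvd (h := C v ^ M * G (M + 1)) prime_C_X hN ?_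
    rw [hmain, hG0, hv, map_mul, map_pow, Nat.add_sub_cancel]
    ring
  have hcoeff : ∀ n, ∀ j < q, φ (dp δ j (coeff n (Phi δ (PowerSeries.mk (u 1))))) = 0 := by
    intro n j hj
    obtain ⟨g, hg⟩ := hdvd
    have h1 : (X : ℂ⟦X⟧) ^ q ∣ θ (coeff n (Phi δ (PowerSeries.mk (u 1)))) := by
      have h2 := congrArg (coeff n) hg
      rw [← map_pow, coeff_C_mul] at h2
      refine ⟨coeff n g, ?_⟩
      rw [← h2]
      exact (coeff_map θ n (Phi δ (PowerSeries.mk (u 1)))).symm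
    rw [X_pow_dvd_iff] at h1
    have h2 := h1 j hj
    rwa [hθ, coeff_theta hδ φ j] at h2
  have h1 := coeff_eq_sum_Phi δ (PowerSeries.mk (u 1)) q
  rw [coeff_mk] at h1
  rw [h1, map_sum, Finset.sum_eq_single (q, 0)]
  · simp [coeff_Phi]
  · rintro ⟨a, b⟩ hp hne
    rw [HasAntidiagonal.mem_antidiagonal] at hp
    simp only at hp
    apply hcoeff
    rcases Nat.lt_or_ge a q with h | h
    · exact h
    · exfalso
      apply hne
      have h2 : a = q := by omega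
      have h3 : b = 0 := by omega
      rw [h2, h3]
  · intro h
    exact absurd (HasAntidiagonal.mem_antidiagonal.2 (add_zero q)) h

end Key

end Pool.Agent.Lib.MP_b3782f_an.H79b
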