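import Mathlib

set_option autoImplicit false

namespace Pool.Agent.Lib.MP_b3782f_an.H79b

/-- The operator package: `X` is the parameter space `ℓ¹`, `V` the space of bounded functions
`Multiset ℕ → A`, `S c = ∑ c_j T_j`, `ev` is evaluation at the empty multiset, `f` is the function
`m ↦ y α^m` (card `m ≤ N`), `Wm c = ∑ c_j (α_j w)`, `X₀` are the finitely supported parameters and
`b e = ∑ e_j α_j` for `e` in `X₀`. -/
structure Ops (A : Type) [NormedRing A] [NormedAlgebra ℂ A] (φ : A →ₐ[ℂ] ℂ) (y w : A)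
    (N : ℕ) where
  X : Type
  V : Type
  [nX : NormedAddCommGroup X]
  [sX : NormedSpace ℂ X]
  [cX : CompleteSpace X]
  [nV : NormedAddCommGroup V]
  [sV : NormedSpace ℂ V]
  S : X →L[ℂ] (V →L[ℂ] V)
  ev : V →L[ℂ] A
  f : V
  Wm : X →L[ℂ] A
  X₀ : Set X
  b : X → A
  comm : ∀ s c, Commute (S s) (S c)
  evf : ev f = y
  dense : Dense X₀
  mul_b : ∀ s c, ∀ e ∈ X₀, ∀ i k l : ℕ, i + k + l ≤ N →
    ev ((S s ^ i * S c ^ k * S e ^ l) f) = ev ((S s ^ i * S c ^ k) f) * b e ^ l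
  Wb : ∀ e ∈ X₀, Wm e = b e * w
  rel : ∀ s, ∀ i < N, ev ((S s ^ (i + 1)) f) * w = ev ((S s ^ i) f) * Wm s
  small : ∀ ρ > 0, ∃ e ∈ X₀, ‖e‖ < ρ ∧ φ (b e) = 1

attribute [instance] Ops.nX Ops.sX Ops.cX Ops.nV Ops.sV

/-- Module SEQ. -/
def SeqStatement : Prop :=
  ∀ (A : Type) [NormedRing A] [NormedAlgebra ℂ A] (φ : A →ₐ[ℂ] ℂ) (y w : A) (a : ℕ → A) (N : ℕ),
    (∀ i j, Commute (a i) (a j)) → (∀ j, φ (a j) = 1) →
    (∀ r, 1 ≤ r → Filter.Tendsto (fun j => y * a j ^ r) Filter.atTop (nhds 0)) →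
    Filter.Tendsto (fun j => a j * w) Filter.atTop (nhds 0) →
    ∃ (C : Type) (_ : CommMonoid C) (ι : C →* A) (α : ℕ → C),
      (∀ m : Multiset ℕ, 1 ≤ m.card → m.card ≤ N → ‖y * ι (m.map α).prod‖ ≤ 1) ∧
      (∀ j, ‖ι (α j) * w‖ ≤ 1) ∧ (∀ j, φ (ι (α j)) = 2 ^ j)

/-- Module OPS. -/
def OpsStatement : Prop :=
  ∀ (A : Type) [NormedRing A] [NormedAlgebra ℂ A] [CompleteSpace A] (φ : A →ₐ[ℂ] ℂ) (y w : A)
    (N : ℕ) (C : Type) [CommMonoid C] (ι : C →* A) (α : ℕ → C),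
    (∀ m : Multiset ℕ, 1 ≤ m.card → m.card ≤ N → ‖y * ι (m.map α).prod‖ ≤ 1) →
    (∀ j, ‖ι (α j) * w‖ ≤ 1) → (∀ j, φ (ι (α j)) = 2 ^ j) →
    Nonempty (Ops A φ y w N)

end Pool.Agent.Lib.MP_b3782f_an.H79b
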