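import Pool.Agent.Lib.MP_b3782f_an.H79b.Alg
import Pool.Agent.Lib.MP_b3782f_an.H79b.Iface
import Pool.Agent.Lib.MP_b3782f_an.H78.BF
import Pool.Agent.Lib.MP_b3782f_an.H78.Near

set_option autoImplicit false

open Filter Topology Finset

namespace Pool.Agent.Lib.MP_b3782f_an.H79b

open Pool.Agent.Lib.MP_b3782f_an.H79

section Binom

variable {R : Type*} [Ring R] [Algebra ℂ R]

theorem comm_add_pow {a b : R} (h : Commute a b) (n : ℕ) :
    (a + b) ^ n = ∑ m ∈ range (n + 1), ((n.choose m : ℕ) : ℂ) • (a ^ m * b ^ (n - m)) := by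
  rw [h.add_pow]
  refine Finset.sum_congr rfl fun m _ => ?_
  rw [Algebra.smul_def, map_natCast, (Nat.cast_commute _ _).eq]

theorem comm_sub_pow {a b : R} (h : Commute a b) (n : ℕ) :
    (a - b) ^ n = ∑ m ∈ range (n + 1), (((-1 : ℂ) ^ (n - m)) * ((n.choose m : ℕ) : ℂ)) •
      (a ^ m * b ^ (n - m)) := by
  rw [sub_eq_add_neg, comm_add_pow h.neg_right]
  refine Finset.sum_congr rfl fun m _ => ?_
  have h1 : (-b) ^ (n - m) = ((-1 : ℂ) ^ (n - m)) • b ^ (n - m) := by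
    rw [← neg_one_smul ℂ b, smul_pow]
  rw [h1, mul_smul_comm, smul_smul, mul_comm]

end Binom

section Final

variable {A : Type} [NormedRing A] [NormedAlgebra ℂ A]
variable {φ : A →ₐ[ℂ] ℂ} {y w : A} {N : ℕ} (O : Ops A φ y w N)

/-- `y b_s^i b_c^k`. -/
noncomputable def FF (i k : ℕ) (s c : O.X) : A := O.ev ((O.S s ^ i * O.S c ^ k) O.f)

/-- `y b_s^i`. -/
noncomputable def GG (i : ℕ) (s : O.X) : A := O.ev ((O.S s ^ i) O.f)

theorem FF_zero (i : ℕ) (s c : O.X) : FF O i 0 s c = GG O i s := by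
  rw [FF, GG, pow_zero, mul_one]

theorem GG_zero (s : O.X) : GG O 0 s = y := by
  rw [GG, pow_zero]
  exact O.evf

theorem GG_one_zero : GG O 1 0 = 0 := by
  rw [GG, pow_one, map_zero]
  exact map_zero O.ev

theorem GG_one_b {e : O.X} (he : e ∈ O.X₀) (hN : 1 ≤ N) : GG O 1 e = y * O.b e := by
  have h := O.mul_b 0 0 e he 0 0 1 (by omega)
  rw [pow_zero, one_mul, one_mul, pow_one, pow_one] at h
  have h1 : O.ev ((1 : O.V →L[ℂ] O.V) O.f) = y := O.evf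
  rw [h1] at h
  rw [GG, pow_one, h]

theorem continuous_GG (i : ℕ) : Continuous (GG O i) := by
  have h1 : Continuous fun s : O.X => (O.S s ^ i) := (O.S.continuous).pow i
  have h2 : Continuous fun s : O.X => (O.S s ^ i) O.f :=
    (ContinuousLinearMap.apply ℂ O.V O.f).continuous.comp h1
  exact O.ev.continuous.comp h2

/-- The linear map `T ↦ ev (T f)`. -/
noncomputable def evf : (O.V →L[ℂ] O.V) →ₗ[ℂ] A :=
  (O.ev : O.V →ₗ[ℂ] A) ∘ₗ ((ContinuousLinearMap.apply ℂ O.V O.f : (O.V →L[ℂ] O.V) →L[ℂ] O.V) :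
    (O.V →L[ℂ] O.V) →ₗ[ℂ] O.V)

theorem evf_apply (T : O.V →L[ℂ] O.V) : evf O T = O.ev (T O.f) := rfl

theorem GG_add (i : ℕ) (s c : O.X) :
    GG O i (s + c) = ∑ m ∈ range (i + 1), ((i.choose m : ℕ) : ℂ) • FF O m (i - m) s c := by
  rw [GG, map_add, comm_add_pow (O.comm s c), ← evf_apply, map_sum]
  refine Finset.sum_congr rfl fun m _ => ?_
  rw [map_smul, evf_apply, FF]

theorem FF_smul (i k : ℕ) (l : ℂ) (s c : O.X) : FF O i k s (l • c) = l ^ k • FF O i k s c := by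
  rw [FF, FF, map_smul, smul_pow, mul_smul_comm, ← evf_apply, map_smul, evf_apply]

theorem FF_sub {e : O.X} (he : e ∈ O.X₀) {i k : ℕ} (hik : i + k ≤ N) (s c : O.X) :
    FF O i k s (c - e) = ∑ m ∈ range (k + 1), (((-1 : ℂ) ^ (k - m)) * ((k.choose m : ℕ) : ℂ)) •
      (FF O i m s c * O.b e ^ (k - m)) := by
  rw [FF, map_sub, comm_sub_pow (O.comm c e), Finset.mul_sum, ← evf_apply, map_sum]
  refine Finset.sum_congr rfl fun m hm => ?_
  rw [mul_smul_comm, map_smul, ← mul_assoc, evf_apply]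
  congr 1
  rw [Finset.mem_range] at hm
  exact O.mul_b s c e he i m (k - m) (by omega)

/-- The indices. -/
def JJ (N : ℕ) : Finset (ℕ × ℕ) := (range (N + 1) ×ˢ range (N + 1)).filter
  fun r => 1 ≤ r.2 ∧ r.1 + r.2 ≤ N

theorem mem_JJ {i k : ℕ} : (i, k) ∈ JJ N ↔ 1 ≤ k ∧ i + k ≤ N := by
  simp only [JJ, Finset.mem_filter, Finset.mem_product, Finset.mem_range]
  omega

variable (δ : A →ₗ[ℂ] A)

/-- The size of the jets of the correction `c` at `s`. -/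
noncomputable def MM (s : O.X) (p₀ : ℕ) (c : O.X) : ℝ :=
  ∑ p ∈ range (p₀ + 1), (‖dp δ p (O.Wm c)‖ + ∑ r ∈ JJ N, ‖dp δ p (FF O r.1 r.2 s c)‖)

theorem MM_nonneg (s : O.X) (p₀ : ℕ) (c : O.X) : 0 ≤ MM O δ s p₀ c :=
  Finset.sum_nonneg fun _ _ => add_nonneg (norm_nonneg _)
    (Finset.sum_nonneg fun _ _ => norm_nonneg _)

theorem le_MM_W (s : O.X) {p₀ p : ℕ} (hp : p ≤ p₀) (c : O.X) :
    ‖dp δ p (O.Wm c)‖ ≤ MM O δ s p₀ c := by
  have h1 : ‖dp δ p (O.Wm c)‖ + ∑ r ∈ JJ N, ‖dp δ p (FF O r.1 r.2 s c)‖ ≤ MM O δ s p₀ c :=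
    Finset.single_le_sum (f := fun p => ‖dp δ p (O.Wm c)‖
      + ∑ r ∈ JJ N, ‖dp δ p (FF O r.1 r.2 s c)‖) (fun _ _ => add_nonneg (norm_nonneg _)
      (Finset.sum_nonneg fun _ _ => norm_nonneg _)) (Finset.mem_range.2 (Nat.lt_succ_of_le hp))
  have h2 : 0 ≤ ∑ r ∈ JJ N, ‖dp δ p (FF O r.1 r.2 s c)‖ :=
    Finset.sum_nonneg fun _ _ => norm_nonneg _
  linarith

theorem le_MM_F (s : O.X) {p₀ p : ℕ} (hp : p ≤ p₀) (c : O.X) {i k : ℕ} (hk : 1 ≤ k)
    (hik : i + k ≤ N) : ‖dp δ p (FF O i k s c)‖ ≤ MM O δ s p₀ c := by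
  have h1 : ‖dp δ p (O.Wm c)‖ + ∑ r ∈ JJ N, ‖dp δ p (FF O r.1 r.2 s c)‖ ≤ MM O δ s p₀ c :=
    Finset.single_le_sum (f := fun p => ‖dp δ p (O.Wm c)‖
      + ∑ r ∈ JJ N, ‖dp δ p (FF O r.1 r.2 s c)‖) (fun _ _ => add_nonneg (norm_nonneg _)
      (Finset.sum_nonneg fun _ _ => norm_nonneg _)) (Finset.mem_range.2 (Nat.lt_succ_of_le hp))
  have hmem : (i, k) ∈ JJ N := mem_JJ.2 ⟨hk, hik⟩
  have h2 : ∀ g : ℕ × ℕ → ℝ, (∀ r, 0 ≤ g r) → g (i, k) ≤ ∑ r ∈ JJ N, g r :=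
    fun g hg => Finset.single_le_sum (fun r _ => hg r) hmem
  refine (h2 (fun r => ‖dp δ p (FF O r.1 r.2 s c)‖) (fun _ => norm_nonneg _)).trans
    (le_trans ?_ h1)
  exact le_add_of_nonneg_left (norm_nonneg _)

theorem MM_scale (s : O.X) (p₀ : ℕ) (l : ℝ) (c : O.X) (h0 : 0 ≤ l) (h1 : l ≤ 1) :
    MM O δ s p₀ (l • c) ≤ l * MM O δ s p₀ c := by
  have hl : (l • c : O.X) = ((l : ℂ)) • c := rfl
  rw [MM, MM, Finset.mul_sum]
  refine Finset.sum_le_sum fun p _ => ?_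
  rw [mul_add, Finset.mul_sum]
  refine add_le_add ?_ (Finset.sum_le_sum fun r hr => ?_)
  · rw [hl, map_smul, map_smul, norm_smul, Complex.norm_real, Real.norm_of_nonneg h0]
  · obtain ⟨i, k⟩ := r
    obtain ⟨hk, -⟩ := mem_JJ.1 hr
    simp only
    rw [hl, FF_smul, map_smul, norm_smul, norm_pow, Complex.norm_real, Real.norm_of_nonneg h0]
    gcongr
    exact pow_le_of_le_one h0 h1 (by omega)

variable {δ} (hδ : ∀ a b : A, δ (a * b) = a * δ b + δ a * b)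

include hδ

theorem norm_dp_mul_le (p : ℕ) (a b : A) :
    ‖dp δ p (a * b)‖ ≤ ∑ r ∈ antidiagonal p, ‖dp δ r.1 a‖ * ‖dp δ r.2 b‖ := by
  rw [dp_mul hδ]
  exact (norm_sum_le _ _).trans (Finset.sum_le_sum fun r _ => norm_mul_le _ _)

theorem MM_trans (s : O.X) (p₀ : ℕ) (e : O.X) (he : e ∈ O.X₀) (n : ℝ) :
    ∃ C : ℝ, ∀ c, MM O δ s p₀ c ≤ n → MM O δ s p₀ (c - e) ≤ C := by
  -- bound for each term
  have hF : ∀ p ≤ p₀, ∀ i k : ℕ, 1 ≤ k → i + k ≤ N → ∃ C : ℝ, ∀ c, MM O δ s p₀ c ≤ n →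
      ‖dp δ p (FF O i k s (c - e))‖ ≤ C := by
    intro p hp i k hk hik
    refine ⟨∑ m ∈ range (k + 1), ‖(((-1 : ℂ) ^ (k - m)) * ((k.choose m : ℕ) : ℂ))‖ *
      ∑ r ∈ antidiagonal p, (n + ‖dp δ r.1 (GG O i s)‖) * ‖dp δ r.2 (O.b e ^ (k - m))‖,
      fun c hc => ?_⟩
    have hn : 0 ≤ n := (MM_nonneg O δ s p₀ c).trans hc
    rw [FF_sub O he hik, map_sum]
    refine (norm_sum_le _ _).trans (Finset.sum_le_sum fun m hm => ?_)
    rw [map_smul, norm_smul]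
    refine mul_le_mul_of_nonneg_left ((norm_dp_mul_le hδ _ _ _).trans
      (Finset.sum_le_sum fun r hr => mul_le_mul_of_nonneg_right ?_ (norm_nonneg _)))
      (norm_nonneg _)
    rw [Finset.mem_range] at hm
    rw [HasAntidiagonal.mem_antidiagonal] at hr
    rcases Nat.eq_zero_or_pos m with h0 | h0
    · subst h0
      rw [FF_zero]
      linarith
    · have h1 := le_MM_F O δ s (show r.1 ≤ p₀ by omega) c (i := i) (k := m) h0 (by omega)
      have h2 := norm_nonneg (dp δ r.1 (GG O i s))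
      linarith
  have hW : ∀ p ≤ p₀, ∃ C : ℝ, ∀ c, MM O δ s p₀ c ≤ n → ‖dp δ p (O.Wm (c - e))‖ ≤ C := by
    intro p hp
    refine ⟨n + ‖dp δ p (O.Wm e)‖, fun c hc => ?_⟩
    rw [map_sub, map_sub]
    refine (norm_sub_le _ _).trans ?_
    have h1 := le_MM_W O δ s hp c
    linarith
  have hF' : ∀ p i k : ℕ, ∃ C : ℝ, p ≤ p₀ → 1 ≤ k → i + k ≤ N → ∀ c, MM O δ s p₀ c ≤ n →
      ‖dp δ p (FF O i k s (c - e))‖ ≤ C := by
    intro p i k
    by_cases h : p ≤ p₀ ∧ 1 ≤ k ∧ i + k ≤ N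
    · obtain ⟨C, hC⟩ := hF p h.1 i k h.2.1 h.2.2
      exact ⟨C, fun _ _ _ => hC⟩
    · exact ⟨0, fun h1 h2 h3 => absurd ⟨h1, h2, h3⟩ h⟩
  have hW' : ∀ p : ℕ, ∃ C : ℝ, p ≤ p₀ → ∀ c, MM O δ s p₀ c ≤ n →
      ‖dp δ p (O.Wm (c - e))‖ ≤ C := by
    intro p
    by_cases h : p ≤ p₀
    · obtain ⟨C, hC⟩ := hW p h
      exact ⟨C, fun _ => hC⟩
    · exact ⟨0, fun h1 => absurd h1 h⟩
  choose CF hCF using hF'
  choose CW hCW using hW'
  refine ⟨∑ p ∈ range (p₀ + 1), (CW p + ∑ r ∈ JJ N, CF p r.1 r.2), fun c hc => ?_⟩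
  rw [MM]
  refine Finset.sum_le_sum fun p hp => ?_
  rw [Finset.mem_range] at hp
  refine add_le_add (hCW p (by omega) c hc) (Finset.sum_le_sum fun r hr => ?_)
  obtain ⟨i, k⟩ := r
  obtain ⟨hk, hik⟩ := mem_JJ.1 hr
  exact hCF p i k (by omega) hk hik c hc

theorem MM_near (s : O.X) (p₀ : ℕ) {ε : ℝ} (hε : 0 < ε) :
    ∃ ρ : ℝ, 0 < ρ ∧ Metric.ball (0 : O.X) ρ ⊆ closure {c | MM O δ s p₀ c < ε} :=
  MPb3782f.H78.near_open (MM O δ s p₀) (fun l c h0 h1 => MM_scale O δ s p₀ l c h0 h1) O.X₀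
    O.dense (fun e he n => MM_trans O hδ s p₀ e he n) ε hε

omit hδ in
/-- Increments of `GG`. -/
theorem GG_incr (s : O.X) {p₀ p : ℕ} (hp : p ≤ p₀) (c : O.X) {i : ℕ} (hi : i ≤ N) :
    ‖dp δ p (GG O i (s + c)) - dp δ p (GG O i s)‖ ≤ 2 ^ N * MM O δ s p₀ c := by
  have hM := MM_nonneg O δ s p₀ c
  have h1 : GG O i (s + c) - GG O i s
      = ∑ m ∈ range i, ((i.choose m : ℕ) : ℂ) • FF O m (i - m) s c := by
    rw [GG_add, Finset.sum_range_succ, Nat.choose_self, Nat.sub_self, FF_zero, Nat.cast_one,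
      one_smul, add_sub_cancel_right]
  rw [← map_sub, h1, map_sum]
  calc ‖∑ m ∈ range i, dp δ p (((i.choose m : ℕ) : ℂ) • FF O m (i - m) s c)‖
      ≤ ∑ m ∈ range i, ((i.choose m : ℕ) : ℝ) * MM O δ s p₀ c := by
        refine (norm_sum_le _ _).trans (Finset.sum_le_sum fun m hm => ?_)
        rw [Finset.mem_range] at hm
        rw [map_smul, norm_smul, Complex.norm_natCast]
        exact mul_le_mul_of_nonneg_left (le_MM_F O δ s hp c (by omega) (by omega))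
          (Nat.cast_nonneg _)
    _ ≤ ∑ m ∈ range (i + 1), ((i.choose m : ℕ) : ℝ) * MM O δ s p₀ c := by
        rw [Finset.sum_range_succ]
        have : 0 ≤ ((i.choose i : ℕ) : ℝ) * MM O δ s p₀ c := by positivity
        linarith
    _ = 2 ^ i * MM O δ s p₀ c := by
        rw [← Finset.sum_mul, ← Nat.cast_sum, Nat.sum_range_choose]
        push_cast
        rfl
    _ ≤ 2 ^ N * MM O δ s p₀ c := by
        gcongr
        · norm_num

end Final

section Limit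

variable {A : Type} [NormedRing A] [NormedAlgebra ℂ A] [CompleteSpace A]
variable {φ : A →ₐ[ℂ] ℂ} {y w : A} {N : ℕ} (O : Ops A φ y w N)
variable {δ : A →ₗ[ℂ] A} (hδ : ∀ a b : A, δ (a * b) = a * δ b + δ a * b)

include hδ

theorem limit_system {K : ℝ} (hK0 : 0 ≤ K) (hK : ∀ a, ‖φ a‖ ≤ K * ‖a‖) {q : ℕ}
    (hq : ∀ j < q, φ (dp δ j y) = 0) (hw : ∃ n, φ (dp δ n w) ≠ 0) (hN : q < N) {ε : ℝ}
    (hε : 0 < ε) (s : ℕ → O.X) (sinf : O.X) (hs : Tendsto s atTop (𝓝 sinf))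
    (hinc : ∀ n, MM O δ (s n) (n + q) (s (n + 1) - s n) < ε * (1 / 2) ^ n) :
    ‖φ (dp δ q (GG O 1 (s 0))) - φ (dp δ q (GG O 1 sinf))‖ ≤ K * (2 ^ N * ε * 2) := by
  have hG1 : ∀ i ≤ N, ∀ p n, p ≤ n + q →
      dist (dp δ p (GG O i (s n))) (dp δ p (GG O i (s (n + 1)))) ≤ 2 ^ N * ε * (1 / 2) ^ n := by
    intro i hi p n hp
    have h1 := GG_incr O (δ := δ) (s n) hp (s (n + 1) - s n) hi
    rw [add_sub_cancel] at h1
    rw [dist_comm, dist_eq_norm]
    refine h1.trans ?_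
    rw [mul_assoc]
    have := (hinc n).le
    gcongr
  have hW1 : ∀ p n, p ≤ n + q →
      dist (dp δ p (O.Wm (s n))) (dp δ p (O.Wm (s (n + 1)))) ≤ ε * (1 / 2) ^ n := by
    intro p n hp
    have h1 := le_MM_W O δ (s n) hp (s (n + 1) - s n)
    rw [dist_comm, dist_eq_norm, ← map_sub, ← map_sub]
    exact h1.trans (hinc n).le
  have hGl : ∀ i p, ∃ l, i ≤ N → Tendsto (fun n => dp δ p (GG O i (s n))) atTop (𝓝 l) := by
    intro i p
    by_cases hi : i ≤ N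
    · have h : CauchySeq (fun n => dp δ p (GG O i (s (n + p)))) := by
        refine cauchySeq_of_le_geometric (1 / 2) (2 ^ N * ε) (by norm_num) fun n => ?_
        have h1 := hG1 i hi p (n + p) (by omega)
        rw [show n + 1 + p = n + p + 1 by omega]
        refine h1.trans ?_
        have h2 : (1 / 2 : ℝ) ^ (n + p) ≤ (1 / 2) ^ n :=
          pow_le_pow_of_le_one (by norm_num) (by norm_num) (Nat.le_add_right n p)
        gcongr
      obtain ⟨l, hl⟩ := cauchySeq_tendsto_of_complete h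
      exact ⟨l, fun _ => (tendsto_add_atTop_iff_nat p).1 hl⟩
    · exact ⟨0, fun h => absurd h hi⟩
  have hWl : ∀ p, ∃ l, Tendsto (fun n => dp δ p (O.Wm (s n))) atTop (𝓝 l) := by
    intro p
    have h : CauchySeq (fun n => dp δ p (O.Wm (s (n + p)))) := by
      refine cauchySeq_of_le_geometric (1 / 2) ε (by norm_num) fun n => ?_
      have h1 := hW1 p (n + p) (by omega)
      rw [show n + 1 + p = n + p + 1 by omega]
      refine h1.trans ?_
      have h2 : (1 / 2 : ℝ) ^ (n + p) ≤ (1 / 2) ^ n :=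
        pow_le_pow_of_le_one (by norm_num) (by norm_num) (Nat.le_add_right n p)
      gcongr
    obtain ⟨l, hl⟩ := cauchySeq_tendsto_of_complete h
    exact ⟨l, (tendsto_add_atTop_iff_nat p).1 hl⟩
  choose u hu using hGl
  choose t ht using hWl
  have hu0 : ∀ p, u 0 p = dp δ p y := by
    intro p
    refine tendsto_nhds_unique (hu 0 p (Nat.zero_le N)) ?_
    simp only [GG_zero]
    exact tendsto_const_nhds
  have hrel : ∀ i < N, ∀ p, ∑ r ∈ antidiagonal p, u (i + 1) r.1 * dp δ r.2 w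
      = ∑ r ∈ antidiagonal p, u i r.1 * t r.2 := by
    intro i hi p
    have h1 : Tendsto (fun n => dp δ p (GG O (i + 1) (s n) * w)) atTop
        (𝓝 (∑ r ∈ antidiagonal p, u (i + 1) r.1 * dp δ r.2 w)) := by
      simp only [dp_mul hδ]
      exact tendsto_finsetSum _ fun r _ => (hu (i + 1) r.1 hi).mul_const _
    have h2 : Tendsto (fun n => dp δ p (GG O (i + 1) (s n) * w)) atTop
        (𝓝 (∑ r ∈ antidiagonal p, u i r.1 * t r.2)) := by
      have h3 : ∀ n, GG O (i + 1) (s n) * w = GG O i (s n) * O.Wm (s n) :=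
        fun n => O.rel (s n) i hi
      simp only [h3, dp_mul hδ]
      exact tendsto_finsetSum _ fun r _ => (hu i r.1 hi.le).mul (ht r.2)
    exact tendsto_nhds_unique h1 h2
  have hu1 : u 1 0 = GG O 1 sinf := by
    refine tendsto_nhds_unique (hu 1 0 (by omega)) ?_
    simp only [dp_zero]
    exact ((continuous_GG O 1).tendsto sinf).comp hs
  have hkey := key_alg hδ φ hq hw hN u t hu0 hrel
  rw [hu1] at hkey
  rw [← hkey, ← map_sub]
  refine (hK _).trans ?_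
  gcongr
  rw [← dist_eq_norm]
  have h1 := dist_le_of_le_geometric_of_tendsto₀ (1 / 2) (2 ^ N * ε) (by norm_num)
    (fun n => hG1 1 (by omega) q n (by omega)) (hu 1 q (by omega))
  refine h1.trans (le_of_eq ?_)
  ring

include O in
theorem final_contra {K : ℝ} (hK0 : 0 < K) (hK : ∀ a, ‖φ a‖ ≤ K * ‖a‖) {q : ℕ}
    (hq : ∀ j < q, φ (dp δ j y) = 0) (hq' : φ (dp δ q y) ≠ 0)
    (hw : ∃ n, φ (dp δ n w) ≠ 0) (hN : q < N) : False := by
  set ε : ℝ := ‖φ (dp δ q y)‖ / (K * 2 ^ N * 8) with hε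
  have hpos : 0 < ‖φ (dp δ q y)‖ := norm_pos_iff.2 hq'
  have hε0 : 0 < ε := by positivity
  have hnear : ∀ (n : ℕ) (s : O.X), ∃ ρ : ℝ, 0 < ρ ∧
      Metric.ball (0 : O.X) ρ ⊆ closure {c | MM O δ s (n + q) c < ε * (1 / 2) ^ n} :=
    fun n s => MM_near O hδ s (n + q) (by positivity)
  choose R hR hR2 using hnear
  obtain ⟨e, he, heR, heφ⟩ := O.small (R 0 0) (hR 0 0)
  obtain ⟨s, s', sinf, h0, h0', hinc, hinc', hs, hs'⟩ := MPb3782f.H78.back_and_forth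
    (fun n s => {c | MM O δ s (n + q) c < ε * (1 / 2) ^ n}) R hR hR2 0 e
    (by rwa [sub_zero])
  have h1 := limit_system O hδ hK0.le hK hq hw hN hε0 s sinf hs hinc
  have h2 := limit_system O hδ hK0.le hK hq hw hN hε0 s' sinf hs' hinc'
  rw [h0, GG_one_zero, map_zero, map_zero, zero_sub, norm_neg] at h1
  have h3 : φ (dp δ q (GG O 1 (s' 0))) = φ (dp δ q y) := by
    rw [h0', GG_one_b O he (by omega), dp_mul hδ, map_sum, Finset.sum_eq_single (q, 0)]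
    · simp only [dp_zero, map_mul, heφ, mul_one]
    · rintro ⟨a, b⟩ hp hne
      rw [HasAntidiagonal.mem_antidiagonal] at hp
      simp only at hp
      have hlt : a < q := by
        rcases Nat.lt_or_ge a q with h | h
        · exact h
        · exfalso
          apply hne
          have h2 : a = q := by omega
          have h3 : b = 0 := by omega
          rw [h2, h3]
      simp only [map_mul, hq a hlt, zero_mul]
    · intro h
      exact absurd (HasAntidiagonal.mem_antidiagonal.2 (add_zero q)) h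
  rw [h3] at h2
  have h4 : ‖φ (dp δ q y)‖ ≤ K * (2 ^ N * ε * 2) + K * (2 ^ N * ε * 2) := by
    calc ‖φ (dp δ q y)‖ = ‖(φ (dp δ q y) - φ (dp δ q (GG O 1 sinf)))
          + φ (dp δ q (GG O 1 sinf))‖ := by rw [sub_add_cancel]
      _ ≤ _ := (norm_add_le _ _).trans (add_le_add h2 h1)
  have h5 : K * (2 ^ N * ε * 2) + K * (2 ^ N * ε * 2) = ‖φ (dp δ q y)‖ / 2 := by
    rw [hε]
    field_simp
    ring
  rw [h5] at h4
  linarith

end Limit

end Pool.Agent.Lib.MP_b3782f_an.H79b
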