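import Pool.Agent.Lib.MP_b3782f_an.H79b.Final
import Pool.Agent.Lib.MP_b3782f_an.H78.Gen

set_option autoImplicit false

open Filter Topology Finset

namespace Pool.Agent.Lib.MP_b3782f_an.H79b

open Pool.Agent.Lib.MP_b3782f_an.H79

variable {A : Type} [NormedRing A] [NormedAlgebra ℂ A] [CompleteSpace A]
variable {δ : A →ₗ[ℂ] A} (hδ : ∀ a b : A, δ (a * b) = a * δ b + δ a * b)

include hδ

/-- **The local theorem.** For a derivation `δ` of a local Banach algebra with character `φ` all the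
functionals `φ ∘ δ ^ n` are continuous. -/
theorem local_main' (seq : SeqStatement) (ops : OpsStatement) (φ : A →ₐ[ℂ] ℂ)
    (hloc : ∀ a, φ a ≠ 0 → IsUnit a) (n : ℕ) :
    Continuous fun a => φ ((δ ^ n) a) := by
  classical
  by_contra hn
  have hex : ∃ n, ¬ Continuous fun a => φ ((δ ^ n) a) := ⟨n, hn⟩
  set m := Nat.find hex with hm
  have hdisc : ¬ Continuous fun a => φ ((δ ^ m) a) := Nat.find_spec hex
  have hc : ∀ j < m, Continuous fun a => φ ((δ ^ j) a) := fun j hj => by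
    have := Nat.find_min hex hj
    rwa [not_not] at this
  have hφc : Continuous φ := by
    have : ContinuousLinearMapClass (A →ₐ[ℂ] ℂ) ℂ A ℂ := inferInstance
    exact map_continuous φ
  have hmpos : 0 < m := by
    rcases Nat.eq_zero_or_pos m with h | h
    · exfalso
      apply hdisc
      rw [h]
      simpa using hφc
    · exact h
  let φc : A →L[ℂ] ℂ := ⟨φ.toLinearMap, hφc⟩
  let c : ℕ → A →ₗ[ℂ] ℂ := fun j => φ.toLinearMap ∘ₗ (δ ^ j)
  -- an element of the separating space of finite order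
  obtain ⟨s0, hs0, hs0'⟩ : ∃ s ∈ Sep δ, φ ((δ ^ (m - 1)) s) ≠ 0 := by
    by_contra hcon
    push Not at hcon
    apply hdisc
    let f : A →L[ℂ] ℂ := ⟨c (m - 1), hc (m - 1) (by omega)⟩
    have h1 := continuous_of_sep δ f hcon
    have h2 : ∀ a, f (δ a) = φ ((δ ^ m) a) := by
      intro a
      change φ ((δ ^ (m - 1)) (δ a)) = φ ((δ ^ m) a)
      rw [← Module.End.mul_apply, ← pow_succ, Nat.sub_add_cancel hmpos]
    simpa only [h2] using h1
  have hs0f : ∃ n, φ (dp δ n s0) ≠ 0 := by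
    refine ⟨m - 1, ?_⟩
    rw [dp_apply, map_smul, smul_eq_mul]
    exact mul_ne_zero (inv_ne_zero (Nat.cast_ne_zero.2 (Nat.factorial_ne_zero _))) hs0'
  -- an element of the radical of finite order
  obtain ⟨z, hzφ, hzf⟩ : ∃ z : A, φ z = 0 ∧ ∃ n, φ (dp δ n z) ≠ 0 := by
    obtain ⟨y, hy1, hy2⟩ := exists_null_seq (c m) hdisc
    refine ⟨y 0 - φ (y 0) • 1, by simp, m, ?_⟩
    rw [dp_apply, map_smul, smul_eq_mul, map_sub, map_smul, deriv_pow_one hδ hmpos, smul_zero,
      sub_zero]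
    have h1 : φ ((δ ^ m) (y 0)) = 1 := hy2 0
    rw [h1, mul_one]
    exact inv_ne_zero (Nat.cast_ne_zero.2 (Nat.factorial_ne_zero _))
  obtain ⟨y, w, a, hy, hw, hcomm, hφa, hya, haw⟩ :=
    MPb3782f.H78.generic_pair hδ φ hloc z hzφ hzf s0 hs0 hs0f
  set q := Nat.find hy with hq
  have hq1 : φ (dp δ q y) ≠ 0 := Nat.find_spec hy
  have hq2 : ∀ j < q, φ (dp δ j y) = 0 := fun j hj => by
    have := Nat.find_min hy hj
    rwa [not_not] at this
  obtain ⟨C, iC, ι, α, h1, h2, h3⟩ := seq A φ y w a (q + 1) hcomm hφa hya haw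
  obtain ⟨O⟩ := ops A φ y w (q + 1) C ι α h1 h2 h3
  refine final_contra O hδ (K := ‖φc‖ + 1) (by positivity) (fun b => ?_) hq2 hq1 hw
    (Nat.lt_succ_self q)
  refine (φc.le_opNorm b).trans ?_
  gcongr
  linarith

end Pool.Agent.Lib.MP_b3782f_an.H79b
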