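import Pool.Agent.Lib.MP_b3782f_an.H79b.Local
import Pool.Agent.Lib.MP_b3782f_an.H79.Main

set_option autoImplicit false

open Filter Topology Finset

namespace Pool.Agent.Lib.MP_b3782f_an.H79b

open Pool.Agent.Lib.MP_b3782f_an.H79

section Main

variable {A : Type} [NormedRing A] [NormedAlgebra ℂ A] [CompleteSpace A]
variable {δ : A →ₗ[ℂ] A} (hδ : ∀ a b : A, δ (a * b) = a * δ b + δ a * b)

include hδ

/-- **Main theorem.** The separating spaces of all powers of a derivation are contained in the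
radical. -/
theorem main_sep' (seq : SeqStatement) (ops : OpsStatement) (n : ℕ) :
    ∀ y ∈ Sep (δ ^ n), y ∈ jac A := by
  classical
  by_contra hcon0
  have hex : ∃ n, ¬ ∀ y ∈ Sep (δ ^ n), y ∈ jac A := ⟨n, hcon0⟩
  set m := Nat.find hex with hm
  have hm1 : ¬ ∀ y ∈ Sep (δ ^ m), y ∈ jac A := Nat.find_spec hex
  have hm2 : ∀ j < m, ∀ y ∈ Sep (δ ^ j), y ∈ jac A := fun j hj => by
    have := Nat.find_min hex hj
    rwa [not_not] at this
  push Not at hm1
  obtain ⟨y0, hy0, hy0J⟩ := hm1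
  -- continuity modulo the radical below `m`
  have hc : LowCont δ m := by
    intro j hj
    obtain ⟨C, hC, hC2⟩ := exists_bound_of_sep (δ ^ j) (sub (jac A)).mkQL (fun y hy => by
      have h1 := hm2 j hj y hy
      exact (Submodule.Quotient.mk_eq_zero _).2 h1)
    refine ⟨‖((j.factorial : ℂ)⁻¹)‖ * C, by positivity, fun x => ?_⟩
    rw [dp_apply, map_smul_eq_mul, mul_assoc]
    exact mul_le_mul_of_nonneg_left (hC2 x) (norm_nonneg _)
  have hy0S : y0 ∈ SS δ m := by
    obtain ⟨x, hx1, hx2⟩ := hy0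
    refine ⟨fun k => (m.factorial : ℂ) • x k, by simpa using hx1.const_smul (m.factorial : ℂ), ?_⟩
    have h1 : ∀ k, dp δ m ((m.factorial : ℂ) • x k) = (δ ^ m) (x k) := by
      intro k
      rw [dp_apply, map_smul, smul_smul, inv_mul_cancel₀
        (Nat.cast_ne_zero.2 (Nat.factorial_ne_zero m)), one_smul]
    simp only [h1]
    refine squeeze_zero (fun _ => apply_nonneg _ _) (fun k => dsn_le_norm _ _) ?_
    have h2 := (hx2.sub_const y0).norm
    simpa using h2
  obtain ⟨e, heS, he, he0, hmin⟩ := exists_minimal_idem hδ hc hy0S hy0J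
  -- the corner is local
  have hloc := corner_local he he0 (fun a => finite_spectrum hδ hc (by
    rw [← a.left]
    exact SS.mul_right hδ hc heS _)) hmin
  have hnt : Nontrivial (Cor e he) := by
    refine ⟨⟨1, 0, fun h => he0 ?_⟩⟩
    have := congrArg Cor.val h
    rwa [Cor.val_one, Cor.val_zero] at this
  obtain ⟨φ, hφ⟩ := exists_char hloc
  have hcont := local_main' (cder_mul hδ he) seq ops φ hφ
  -- the contradiction
  obtain ⟨x, hx1, hx2⟩ := heS
  have h1 := seq_mul_left hδ hc hx1 hx2 e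
  have hx1' : Tendsto (fun k => e * x k) atTop (𝓝 0) := by simpa using hx1.const_mul e
  have h2 := seq_mul_right hδ hc hx1' h1 e
  rw [he, he] at h2
  have hx0 : Tendsto (fun k => Cor.comp he (x k)) atTop (𝓝 0) := by
    apply squeeze_zero_norm (a := fun k => ‖e‖ * ‖x k‖ * ‖e‖)
    · intro k
      exact norm_comp_le he _
    · have := (hx1.norm.const_mul ‖e‖).mul_const ‖e‖
      simpa using this
  have h3 := ((continuous_phi hδ he φ hcont m 1 1 0).tendsto 0).comp hx0
  have h4 : ∀ k, (fun x : Cor e he => φ (Cor.comp he (1 * dp δ m ((cder δ he ^ 0) x).val * 1)))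
      (Cor.comp he (x k)) = φ (Cor.comp he (dp δ m (e * x k * e))) := by
    intro k
    simp only [pow_zero, Module.End.one_apply, one_mul, mul_one, Cor.val_comp]
  have h5 : Tendsto (fun k => φ (Cor.comp he (dp δ m (e * x k * e)))) atTop (𝓝 0) := by
    have h6 : φ (Cor.comp he (1 * dp δ m ((cder δ he ^ 0) 0).val * 1)) = 0 := by
      rw [map_zero, Cor.val_zero, map_zero, mul_zero, zero_mul, comp_zero, map_zero]
    have h7 := h3.congr h4
    rw [h6] at h7
    exact h7
  -- `φ (comp w)` is bounded by the distance to the radical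
  have hφc : Continuous φ := by
    have := hcont 0
    simpa using this
  obtain ⟨K, hK0, hK⟩ : ∃ K : ℝ, 0 ≤ K ∧ ∀ c : Cor e he, ‖φ c‖ ≤ K * ‖c‖ := by
    let f : Cor e he →L[ℂ] ℂ := ⟨φ.toLinearMap, hφc⟩
    exact ⟨‖f‖, f.opNorm_nonneg, fun c => f.le_opNorm c⟩
  have hbd : ∀ w : A, ‖φ (Cor.comp he w)‖ ≤ K * ‖e‖ * ‖e‖ * dsn (jac A) w := by
    intro w
    apply le_of_forall_pos_le_add
    intro ε hε
    obtain ⟨r, hr, hr2⟩ := dsn_lt (M := jac A) (x := w)
      (show 0 < ε / (K * ‖e‖ * ‖e‖ + 1) by positivity)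
    have h7 : φ (Cor.comp he w) = φ (Cor.comp he (w - r)) := by
      rw [comp_sub, map_sub, phi_comp_jac φ hφ he0 hr, sub_zero]
    rw [h7]
    calc ‖φ (Cor.comp he (w - r))‖ ≤ K * ‖Cor.comp he (w - r)‖ := hK _
      _ ≤ K * (‖e‖ * ‖w - r‖ * ‖e‖) := by gcongr; exact norm_comp_le he _
      _ = K * ‖e‖ * ‖e‖ * ‖w - r‖ := by ring
      _ ≤ K * ‖e‖ * ‖e‖ * (dsn (jac A) w + ε / (K * ‖e‖ * ‖e‖ + 1)) := by gcongr
      _ = K * ‖e‖ * ‖e‖ * dsn (jac A) w
          + K * ‖e‖ * ‖e‖ * (ε / (K * ‖e‖ * ‖e‖ + 1)) := by ring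
      _ ≤ K * ‖e‖ * ‖e‖ * dsn (jac A) w
          + (K * ‖e‖ * ‖e‖ + 1) * (ε / (K * ‖e‖ * ‖e‖ + 1)) := by gcongr; linarith
      _ = K * ‖e‖ * ‖e‖ * dsn (jac A) w + ε := by field_simp
  have h8 : Tendsto (fun k => φ (Cor.comp he (dp δ m (e * x k * e) - e))) atTop (𝓝 0) := by
    apply squeeze_zero_norm (fun k => hbd _)
    have := h2.const_mul (K * ‖e‖ * ‖e‖)
    simpa using this
  have h9 : ∀ k, φ (Cor.comp he (dp δ m (e * x k * e) - e))
      = φ (Cor.comp he (dp δ m (e * x k * e))) - 1 := by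
    intro k
    rw [comp_sub, map_sub]
    have : Cor.comp he e = 1 := Cor.ext (by rw [Cor.val_comp, he, he, Cor.val_one])
    rw [this, map_one]
  simp only [h9] at h8
  have h10 := h5.sub_const 1
  have h11 := tendsto_nhds_unique h8 h10
  norm_num at h11

end Main

end Pool.Agent.Lib.MP_b3782f_an.H79b
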