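import Pool.Agent.Lib.MP_b3782f_an.H79b.Iface

set_option autoImplicit false

open Filter Topology Finset
open scoped ENNReal

namespace Pool.Agent.Lib.MP_b3782f_an.H79b.OpsMod

/-- The parameter space. -/
abbrev XX : Type := lp (fun _ : ℕ => ℂ) 1

theorem hsum_congr {β E : Type*} [AddCommMonoid E] [TopologicalSpace E] {f g : β → E} {a : E}
    (h : ∀ b, f b = g b) : HasSum f a ↔ HasSum g a := by
  rw [funext h]

section L

variable {E : Type*} [NormedAddCommGroup E] [NormedSpace ℂ E] [CompleteSpace E]

theorem summable_norm (c : XX) : Summable fun j => ‖c j‖ := by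
  have h := (memℓp_gen_iff (p := 1) (by norm_num)).1 (lp.memℓp c)
  simpa using h

theorem norm_eq (c : XX) : ‖c‖ = ∑' j, ‖c j‖ := by
  rw [lp.norm_eq_tsum_rpow (by norm_num)]
  simp

theorem summable_smul {v : ℕ → E} (hv : ∀ j, ‖v j‖ ≤ 1) (c : XX) :
    Summable fun j => c j • v j := by
  refine Summable.of_norm_bounded (summable_norm c) fun j => ?_
  rw [norm_smul]
  calc ‖c j‖ * ‖v j‖ ≤ ‖c j‖ * 1 := by gcongr; exact hv j
    _ = ‖c j‖ := mul_one _

/-- The operator `c ↦ ∑ c_j v_j`. -/
noncomputable def LL (v : ℕ → E) (hv : ∀ j, ‖v j‖ ≤ 1) : XX →L[ℂ] E :=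
  LinearMap.mkContinuous
    { toFun := fun c => ∑' j, c j • v j
      map_add' := fun c d => by
        rw [← (summable_smul hv c).tsum_add (summable_smul hv d)]
        refine tsum_congr fun j => ?_
        rw [lp.coeFn_add, Pi.add_apply, add_smul]
      map_smul' := fun a c => by
        rw [RingHom.id_apply, ← (summable_smul hv c).tsum_const_smul]
        refine tsum_congr fun j => ?_
        rw [lp.coeFn_smul, Pi.smul_apply, smul_assoc] } 1
    (fun c => by
      rw [one_mul, norm_eq]
      change ‖∑' j, c j • v j‖ ≤ _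
      refine tsum_of_norm_bounded (summable_norm c).hasSum fun j => ?_
      rw [norm_smul]
      calc ‖c j‖ * ‖v j‖ ≤ ‖c j‖ * 1 := by gcongr; exact hv j
        _ = ‖c j‖ := mul_one _)

theorem hasSum_LL (v : ℕ → E) (hv : ∀ j, ‖v j‖ ≤ 1) (c : XX) :
    HasSum (fun j => c j • v j) (LL v hv c) := (summable_smul hv c).hasSum

end L

section V

variable {A : Type} [NormedRing A] [NormedAlgebra ℂ A]

variable (A) in
/-- The space of bounded functions on multisets. -/
abbrev VV : Type := lp (fun _ : Multiset ℕ => A) ⊤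

/-- The shift. -/
noncomputable def TT (j : ℕ) : VV A →L[ℂ] VV A :=
  LinearMap.mkContinuous
    { toFun := fun f => ⟨fun m => f (j ::ₘ m), memℓp_infty ⟨‖f‖, by
        rintro _ ⟨m, rfl⟩
        exact lp.norm_apply_le_norm ENNReal.top_ne_zero f (j ::ₘ m)⟩⟩
      map_add' := fun f g => rfl
      map_smul' := fun a f => rfl } 1
    (fun f => by
      rw [one_mul]
      refine lp.norm_le_of_forall_le (norm_nonneg _) fun m => ?_
      exact lp.norm_apply_le_norm ENNReal.top_ne_zero f (j ::ₘ m))

theorem TT_apply (j : ℕ) (f : VV A) (m : Multiset ℕ) :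
    (TT (A := A) j f : VV A) m = f (j ::ₘ m) := rfl

theorem norm_TT (j : ℕ) : ‖(TT j : VV A →L[ℂ] VV A)‖ ≤ 1 :=
  LinearMap.mkContinuous_norm_le _ zero_le_one _

theorem commute_TT (i j : ℕ) : Commute (TT i : VV A →L[ℂ] VV A) (TT j) := by
  apply ContinuousLinearMap.ext
  intro f
  apply lp.ext
  funext m
  change f (j ::ₘ i ::ₘ m) = f (i ::ₘ j ::ₘ m)
  rw [Multiset.cons_swap]

/-- Evaluation. -/
noncomputable def EV (m : Multiset ℕ) : VV A →L[ℂ] A :=
  LinearMap.mkContinuous
    { toFun := fun f => f m
      map_add' := fun f g => rfl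
      map_smul' := fun a f => rfl } 1
    (fun f => by
      rw [one_mul]
      exact lp.norm_apply_le_norm ENNReal.top_ne_zero f m)

theorem EV_apply (m : Multiset ℕ) (f : VV A) : (EV (A := A) m f : A) = f m := rfl

variable [CompleteSpace A]

variable (A) in
/-- The operators `S c = ∑ c_j T_j`. -/
noncomputable def SS : XX →L[ℂ] (VV A →L[ℂ] VV A) :=
  LL (E := VV A →L[ℂ] VV A) (TT (A := A)) norm_TT

theorem hasSum_SS (c : XX) (g : VV A) :
    HasSum (fun j => c j • (TT (A := A) j g : VV A)) (SS A c g) := by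
  have h1 := (hasSum_LL (E := VV A →L[ℂ] VV A) (TT (A := A)) norm_TT c).mapL
    (ContinuousLinearMap.apply ℂ (VV A) g)
  exact h1

theorem hasSum_SS_apply (c : XX) (g : VV A) (m : Multiset ℕ) :
    HasSum (fun j => c j • g (j ::ₘ m)) ((SS A c g : VV A) m) :=
  (hasSum_SS c g).mapL (EV (A := A) m)

theorem commute_SS_of (Q : VV A →L[ℂ] VV A) (hQ : ∀ j, Commute (TT (A := A) j) Q) (s : XX) :
    Commute (SS A s) Q := by
  apply ContinuousLinearMap.ext
  intro g
  change SS A s (Q g) = Q (SS A s g)
  have h1 := hasSum_SS s (Q g)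
  have h2 := (hasSum_SS s g).mapL Q
  refine h1.unique ((hsum_congr fun j => ?_).2 h2)
  rw [map_smul]
  congr 1
  have h3 := DFunLike.congr_fun (hQ j) g
  exact h3

theorem commute_SS (s c : XX) : Commute (SS A s) (SS A c) :=
  commute_SS_of _ (fun j => (commute_SS_of _ (fun i => commute_TT i j) c).symm) s

end V

section P

variable {A : Type} [NormedRing A] [NormedAlgebra ℂ A]
variable {C : Type} [CommMonoid C] (ι : C →* A) (α : ℕ → C)

/-- The property that `g` is multiplicative in low degrees. -/
def PP (k : ℕ) (g : VV A) : Prop :=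
  ∀ m : Multiset ℕ, m.card < k → ∀ j, g (j ::ₘ m) = g m * ι (α j)

/-- The element `∑ e_j α_j`. -/
noncomputable def bb (e : XX) : A := ∑' j, e j • ι (α j)

variable {ι α}

theorem hasSum_bb {e : XX} (he : (Function.support fun j => e j).Finite) :
    HasSum (fun j => e j • ι (α j)) (bb ι α e) := by
  refine (summable_of_hasFiniteSupport ?_).hasSum
  refine he.subset ?_
  intro j hj
  rw [Function.mem_support] at hj ⊢
  intro h
  apply hj
  rw [h, zero_smul]

variable [CompleteSpace A]

theorem PP.shift {k : ℕ} {g : VV A} (hg : PP ι α k g) (c : XX) : PP ι α (k - 1) (SS A c g) := by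
  intro m hm j
  have h1 := hasSum_SS_apply c g (j ::ₘ m)
  have h2 := (hasSum_SS_apply c g m).mul_right (ι (α j))
  refine h1.unique ((hsum_congr fun i => ?_).2 h2)
  rw [Multiset.cons_swap, hg (i ::ₘ m) (by rw [Multiset.card_cons]; omega) j, smul_mul_assoc]

theorem PP.shift_pow {k : ℕ} {g : VV A} (hg : PP ι α k g) (c : XX) (i : ℕ) :
    PP ι α (k - i) ((SS A c ^ i) g) := by
  induction i with
  | zero => simpa using hg
  | succ i ih =>
    have h1 : (SS A c ^ (i + 1)) g = SS A c ((SS A c ^ i) g) := by
      rw [pow_succ']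
      rfl
    rw [h1, show k - (i + 1) = k - i - 1 by omega]
    exact ih.shift c

theorem PP.eval {k : ℕ} {g : VV A} (hg : PP ι α k g) (hk : 0 < k) {e : XX}
    (he : (Function.support fun j => e j).Finite) :
    (SS A e g : VV A) 0 = g 0 * bb ι α e := by
  have h1 := hasSum_SS_apply e g 0
  have h2 := (hasSum_bb (ι := ι) (α := α) he).mul_left (g 0)
  refine h1.unique ((hsum_congr fun j => ?_).2 h2)
  rw [hg 0 (by simpa using hk) j, mul_smul_comm]

theorem PP.eval_pow {k : ℕ} {g : VV A} (hg : PP ι α k g) {e : XX}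
    (he : (Function.support fun j => e j).Finite) (l : ℕ) (hl : l ≤ k) :
    ((SS A e ^ l) g : VV A) 0 = g 0 * bb ι α e ^ l := by
  induction l with
  | zero => simp
  | succ l ih =>
    have h1 : (SS A e ^ (l + 1)) g = SS A e ((SS A e ^ l) g) := by
      rw [pow_succ']
      rfl
    rw [h1, (hg.shift_pow e l).eval (by omega) he, ih (by omega), pow_succ, mul_assoc]

end P


section Main

/-- **Module OPS.** -/
theorem ops : OpsStatement := by
  classical
  intro A _ _ _ φ y w N C _ ι α hy hw hφ
  let f : VV A := ⟨fun m => if m.card ≤ N then y * ι (m.map α).prod else 0,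
    memℓp_infty ⟨max 1 ‖y‖, by
      rintro _ ⟨m, rfl⟩
      simp only
      split_ifs with h
      · rcases Nat.eq_zero_or_pos m.card with h0 | h0
        · rw [Multiset.card_eq_zero.1 h0]
          simp
        · exact (hy m h0 h).trans (le_max_left _ _)
      · rw [norm_zero]
        exact zero_le_one.trans (le_max_left _ _)⟩⟩
  have hf : ∀ m, f m = if m.card ≤ N then y * ι (m.map α).prod else 0 := fun m => rfl
  have hP : PP ι α N f := by
    intro m hm j
    rw [hf, hf, if_pos (by rw [Multiset.card_cons]; omega), if_pos (by omega),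
      Multiset.map_cons, Multiset.prod_cons, mul_comm (α j), map_mul, mul_assoc]
  have hf0 : f 0 = y := by
    rw [hf]
    simp
  have hWb : ∀ e : XX, (Function.support fun j => e j).Finite →
      LL (fun j => ι (α j) * w) hw e = bb ι α e * w := by
    intro e he
    have h1 := hasSum_LL (fun j => ι (α j) * w) hw e
    have h2 := (hasSum_bb (ι := ι) (α := α) he).mul_right w
    refine h1.unique ((hsum_congr fun j => ?_).2 h2)
    rw [smul_mul_assoc]
  refine ⟨{ X := XX, V := VV A, S := SS A, ev := EV 0, f := f,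
            Wm := LL (fun j => ι (α j) * w) hw,
            X₀ := {e | (Function.support fun j => e j).Finite},
            b := bb ι α, comm := commute_SS, evf := hf0, dense := ?_, mul_b := ?_, Wb := hWb,
            rel := ?_, small := ?_ }⟩
  · -- density
    intro c
    have h1 := lp.hasSum_single (E := fun _ : ℕ => ℂ) (p := 1) ENNReal.one_ne_top c
    refine mem_closure_of_tendsto h1 (Eventually.of_forall fun s => ?_)
    refine s.finite_toSet.subset ?_
    intro j hj
    rw [Function.mem_support] at hj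
    by_contra hjs
    apply hj
    rw [lp.coeFn_sum, Finset.sum_apply]
    refine Finset.sum_eq_zero fun i hi => ?_
    refine lp.single_apply_ne 1 i _ ?_
    rintro rfl
    exact hjs hi
  · intro s c e he i k l hikl
    have h1 : SS A s ^ i * SS A c ^ k * SS A e ^ l = SS A e ^ l * (SS A s ^ i * SS A c ^ k) := by
      have h2 : Commute (SS A s ^ i * SS A c ^ k) (SS A e ^ l) :=
        Commute.mul_left ((commute_SS s e).pow_pow i l) ((commute_SS c e).pow_pow k l)
      exact h2.eq
    rw [h1]
    have h2 : PP ι α (N - k - i) ((SS A s ^ i * SS A c ^ k) f) :=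
      (hP.shift_pow c k).shift_pow s i
    exact h2.eval_pow he l (by omega)
  · intro s i hi
    have h1 : (SS A s ^ (i + 1)) f = SS A s ((SS A s ^ i) f) := by
      rw [pow_succ']
      rfl
    rw [h1]
    have h2 : PP ι α (N - i) ((SS A s ^ i) f) := hP.shift_pow s i
    set g : VV A := (SS A s ^ i) f with hg
    have h3 := (hasSum_SS_apply s g 0).mul_right w
    have h4 := (hasSum_LL (fun j => ι (α j) * w) hw s).mul_left (g 0)
    refine h3.unique ((hsum_congr fun j => ?_).2 h4)
    rw [h2 0 (by simpa using by omega) j, mul_smul_comm, smul_mul_assoc, mul_assoc]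
  · intro ρ hρ
    obtain ⟨j, hj⟩ := exists_pow_lt_of_lt_one hρ (show (1 / 2 : ℝ) < 1 by norm_num)
    refine ⟨lp.single 1 j (((2 : ℂ) ^ j)⁻¹), ?_, ?_, ?_⟩
    · refine (Set.finite_singleton j).subset ?_
      intro i hi
      rw [Function.mem_support] at hi
      by_contra hij
      exact hi (lp.single_apply_ne 1 j _ hij)
    · rw [lp.norm_single (by norm_num)]
      simpa using hj
    · have h1 : bb ι α (lp.single 1 j (((2 : ℂ) ^ j)⁻¹)) = ((2 : ℂ) ^ j)⁻¹ • ι (α j) := by
        rw [bb, tsum_eq_single j]
        · rw [lp.single_apply_self]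
        · intro i hij
          rw [lp.single_apply_ne 1 j _ hij, zero_smul]
      rw [h1, map_smul, hφ, smul_eq_mul, inv_mul_cancel₀ (pow_ne_zero _ two_ne_zero)]

end Main

end Pool.Agent.Lib.MP_b3782f_an.H79b.OpsMod
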